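import Pool.Agent.QPI.Stmts

set_option autoImplicit false

/-!
# QPI A_LIN: the functional `Ex` is linear
-/

namespace Pool.Agent.QPI.H56

open MvPolynomial

theorem Ex_eq {κ : Type} [Fintype κ] [DecidableEq κ] (p : MvPolynomial κ ℚ)
    (s : Finset (κ →₀ ℕ)) (h : p.support ⊆ s) :
    Ex p = ∑ α ∈ s, p.coeff α * ∏ i, (dm (α i) : ℚ) := by
  unfold Ex
  refine Finset.sum_subset h fun α _ hα => ?_
  rw [MvPolynomial.notMem_support_iff.1 hα, zero_mul]

theorem lin : LinStmt := by
  intro κ _ _
  classical
  refine ⟨fun p q => ?_, fun c p => ?_, fun α c => ?_⟩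
  · rw [Ex_eq (p + q) (p.support ∪ q.support ∪ (p + q).support) Finset.subset_union_right,
      Ex_eq p (p.support ∪ q.support ∪ (p + q).support)
        (Finset.subset_union_left.trans Finset.subset_union_left),
      Ex_eq q (p.support ∪ q.support ∪ (p + q).support)
        (Finset.subset_union_right.trans Finset.subset_union_left), ← Finset.sum_add_distrib]
    refine Finset.sum_congr rfl fun α _ => ?_
    rw [coeff_add]
    ring
  · rw [Ex_eq (C c * p) (p.support ∪ (C c * p).support) Finset.subset_union_right,
      Ex_eq p (p.support ∪ (C c * p).support) Finset.subset_union_left, Finset.mul_sum]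
    refine Finset.sum_congr rfl fun α _ => ?_
    rw [coeff_C_mul]
    ring
  · rw [Ex_eq (monomial α c) {α} support_monomial_subset, Finset.sum_singleton, coeff_monomial,
      if_pos rfl]

end Pool.Agent.QPI.H56
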