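import Pool.Agent.QPI.Stmts

set_option autoImplicit false

/-!
# QPI A_STE: the identity of Stein
-/

namespace Pool.Agent.QPI.H56

open MvPolynomial

theorem dm_succ (n : ℕ) : dm (n + 1) = n * dm (n - 1) := by
  rcases Nat.even_or_odd n with h | h
  · have h1 : ¬ Even (n + 1) := by
      rw [Nat.not_even_iff_odd]
      exact h.add_one
    rcases Nat.eq_zero_or_pos n with rfl | hn
    · simp [dm]
    · have h2 : ¬ Even (n - 1) := by
        rw [Nat.not_even_iff_odd]
        exact Nat.Even.sub_odd hn h odd_one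
      simp [dm, h1, h2]
  · have h1 : Even (n + 1) := h.add_one
    have h2 : Even (n - 1) := by
      obtain ⟨k, rfl⟩ := h
      exact ⟨k, by omega⟩
    unfold dm
    rw [if_pos h1, if_pos h2]
    obtain ⟨k, rfl⟩ := h
    rcases k with _ | k
    · rfl
    · have e1 : 2 * (k + 1) + 1 + 1 - 1 = 2 * k + 1 + 2 := by omega
      have e2 : 2 * (k + 1) + 1 - 1 - 1 = 2 * k + 1 := by omega
      rw [e1, e2, Nat.doubleFactorial_add_two]
      ring

theorem ste (h : LinStmt) : SteinStmt := by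
  intro κ _ _ a p
  obtain ⟨hadd, hC, hmon⟩ := h κ
  induction p using MvPolynomial.induction_on' with
  | monomial γ c =>
    rw [pderiv_monomial, hmon]
    have h1 : (X a : MvPolynomial κ ℚ) * monomial γ c = monomial (Finsupp.single a 1 + γ) c := by
      rw [X, monomial_mul, one_mul]
    rw [h1, hmon]
    have e3 := Finset.mul_prod_erase Finset.univ
      (fun i => ((dm ((Finsupp.single a 1 + γ : κ →₀ ℕ) i) : ℕ) : ℚ)) (Finset.mem_univ a)
    have e4 := Finset.mul_prod_erase Finset.univ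
      (fun i => ((dm ((γ - Finsupp.single a 1 : κ →₀ ℕ) i) : ℕ) : ℚ)) (Finset.mem_univ a)
    rw [← e3, ← e4]
    have h2 : ∏ i ∈ Finset.univ.erase a, ((dm ((Finsupp.single a 1 + γ : κ →₀ ℕ) i) : ℕ) : ℚ) =
        ∏ i ∈ Finset.univ.erase a, ((dm ((γ - Finsupp.single a 1 : κ →₀ ℕ) i) : ℕ) : ℚ) := by
      refine Finset.prod_congr rfl fun i hi => ?_
      have hia : i ≠ a := (Finset.mem_erase.1 hi).1
      have e1 : (Finsupp.single a 1 : κ →₀ ℕ) i = 0 := by
        rw [Finsupp.single_apply, if_neg (Ne.symm hia)]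
      rw [Finsupp.add_apply, Finsupp.tsub_apply, e1, zero_add, tsub_zero]
    have h3 : ((dm ((Finsupp.single a 1 + γ : κ →₀ ℕ) a) : ℕ) : ℚ) =
        (γ a : ℚ) * ((dm ((γ - Finsupp.single a 1 : κ →₀ ℕ) a) : ℕ) : ℚ) := by
      rw [Finsupp.add_apply, Finsupp.tsub_apply, Finsupp.single_eq_same, add_comm 1 (γ a),
        dm_succ, Nat.cast_mul]
    rw [h2, h3]
    ring
  | add p q hp hq =>
    rw [mul_add, hadd, hp, hq, map_add, hadd]

end Pool.Agent.QPI.H56
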